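import Mathlib
import Pool.Agent.H293Z.MO.Sub
import Pool.Agent.H376R2.MR.Selw
import Pool.Agent.H588R5.EP.FL2

set_option autoImplicit false

open Finset

namespace Pool.Agent.H421Z.MO

open Pool.Agent.H392Z.MO Pool.Agent.H293Z.MO

theorem log_floor_ge (z : ℝ) (hz : 2 ≤ z) : Real.log z ≤ 2 * Real.log (⌊z⌋₊ : ℕ) := by
  have h1 : 2 ≤ ⌊z⌋₊ := Nat.le_floor (by exact_mod_cast hz)
  have h2 : z < (⌊z⌋₊ : ℕ) + 1 := Nat.lt_floor_add_one z
  have h3 : (2 : ℝ) ≤ (⌊z⌋₊ : ℕ) := by exact_mod_cast h1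
  have h4 : z ≤ ((⌊z⌋₊ : ℕ) : ℝ) ^ 2 := by nlinarith
  have h5 := Real.log_le_log (by linarith) h4
  rw [Real.log_pow] at h5
  exact_mod_cast h5

theorem sel : S_SEL := by
  refine ⟨2, by norm_num, fun z hz => ?_⟩
  have h1 : 2 ≤ ⌊z⌋₊ := Nat.le_floor (by exact_mod_cast hz)
  obtain ⟨l, hl1, hl2, -, -, hl3, hl4⟩ := Pool.Agent.H376R2.MR.sel_weights ⌊z⌋₊ h1
  refine ⟨l, hl1, hl2, ?_⟩
  rw [abs_of_nonneg hl3]
  refine hl4.trans ?_
  have h2 := log_floor_ge z hz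
  have h3 : 0 < Real.log z := Real.log_pos (by linarith)
  rw [div_le_div_iff₀ (by linarith) h3]
  linarith

theorem cnt (a L m : ℕ) (hm : 0 < m) :
    |(((Ico a (a + L)).filter (fun n => m ∣ n)).card : ℝ) - L / m| ≤ 1 := by
  have h1 := Nat.Ico_filter_modEq_card a (a + L) hm 0
  have h2 : (Ico a (a + L)).filter (fun n => n ≡ 0 [MOD m]) =
      (Ico a (a + L)).filter (fun n => m ∣ n) := by
    refine filter_congr fun n _ => ?_
    exact Nat.modEq_zero_iff_dvd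
  rw [h2] at h1
  have hm' : (0 : ℚ) < m := by exact_mod_cast hm
  have hL : (0 : ℚ) ≤ (L : ℚ) / m := by positivity
  have e1 : ((((a + L : ℕ) : ℚ) - (0 : ℕ)) / m) = (a : ℚ) / m + L / m := by
    push_cast; ring
  have e2 : (((a : ℚ) - (0 : ℕ)) / m) = (a : ℚ) / m := by
    push_cast; ring
  rw [e1, e2] at h1
  have h3 : ⌈(a : ℚ) / m⌉ ≤ ⌈(a : ℚ) / m + L / m⌉ := Int.ceil_mono (by linarith)
  rw [max_eq_left (by linarith)] at h1
  have h4 := Int.le_ceil ((a : ℚ) / m + L / m)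
  have h5 := Int.ceil_lt_add_one ((a : ℚ) / m + L / m)
  have h6 := Int.le_ceil ((a : ℚ) / m)
  have h7 := Int.ceil_lt_add_one ((a : ℚ) / m)
  have h8 : ((((Ico a (a + L)).filter (fun n => m ∣ n)).card : ℕ) : ℚ) =
      (⌈(a : ℚ) / m + L / m⌉ : ℤ) - (⌈(a : ℚ) / m⌉ : ℤ) := by exact_mod_cast h1
  have h9 : |((((Ico a (a + L)).filter (fun n => m ∣ n)).card : ℕ) : ℚ) - L / m| ≤ 1 := by
    rw [h8, abs_le]; constructor <;> linarith
  have h10 := (Rat.cast_le (K := ℝ)).mpr h9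
  push_cast at h10
  exact h10

open Classical in
theorem rough_le_sq (w : ℝ) (hw : 2 ≤ w) (ρ : ℕ → ℝ) (h1 : ρ 1 = 1) (n : ℕ) :
    (if Rough w n then (1 : ℝ) else 0) ≤
      ∑ d ∈ Icc 1 ⌊w⌋₊, ∑ e ∈ Icc 1 ⌊w⌋₊, ρ d * ρ e * (if Nat.lcm d e ∣ n then 1 else 0) := by
  have e : ∑ d ∈ Icc 1 ⌊w⌋₊, ∑ e ∈ Icc 1 ⌊w⌋₊, ρ d * ρ e * (if Nat.lcm d e ∣ n then 1 else 0) =
      (∑ d ∈ Icc 1 ⌊w⌋₊, ρ d * (if d ∣ n then 1 else 0)) ^ 2 := by
    rw [sq, sum_mul_sum]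
    refine sum_congr rfl fun d _ => sum_congr rfl fun e _ => ?_
    by_cases hd : d ∣ n <;> by_cases he : e ∣ n <;> simp [hd, he, Nat.lcm_dvd_iff]
  rw [e]
  split_ifs with hr
  · have hw1 : 1 ≤ ⌊w⌋₊ := Nat.le_floor (by push_cast; linarith)
    have : ∑ d ∈ Icc 1 ⌊w⌋₊, ρ d * (if d ∣ n then (1 : ℝ) else 0) = 1 := by
      rw [sum_eq_single 1]
      · simp [h1]
      · intro d hd hd1
        rw [mem_Icc] at hd
        have hnd : ¬ d ∣ n := by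
          intro hdn
          obtain ⟨p, hp, hpd⟩ := Nat.exists_prime_and_dvd hd1
          have h2 := hr p hp (hpd.trans hdn)
          have h3 : p ≤ d := Nat.le_of_dvd (by omega) hpd
          have h4 : (p : ℝ) ≤ (⌊w⌋₊ : ℕ) := by exact_mod_cast h3.trans hd.2
          have h5 : ((⌊w⌋₊ : ℕ) : ℝ) ≤ w := Nat.floor_le (by linarith)
          linarith
        simp [hnd]
      · intro h
        exact absurd (mem_Icc.mpr ⟨le_rfl, hw1⟩) h
    rw [this]; norm_num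
  · positivity

theorem rb : S_RB := by
  classical
  rintro ⟨C, hC, hS⟩
  refine ⟨2 * C + 1, by positivity, fun t h w ht hw hh => ?_⟩
  obtain ⟨ρ, hρ1, hρ2, hρ3⟩ := hS w hw
  have hw5 : (32 : ℝ) ≤ w ^ 5 := by
    have := pow_le_pow_left₀ (by norm_num : (0 : ℝ) ≤ 2) hw 5
    norm_num at this; linarith
  have hh0 : 1 ≤ h := by linarith
  have hab : ⌈t⌉₊ ≤ ⌈t + h⌉₊ := Nat.ceil_mono (by linarith)
  obtain ⟨L, hL⟩ := Nat.exists_eq_add_of_le hab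
  have hLh : (L : ℝ) ≤ 2 * h := by
    have h1 : ((⌈t + h⌉₊ : ℕ) : ℝ) < t + h + 1 := Nat.ceil_lt_add_one (by linarith)
    have h2 : t ≤ (⌈t⌉₊ : ℕ) := Nat.le_ceil t
    have h3 : ((⌈t + h⌉₊ : ℕ) : ℝ) = (⌈t⌉₊ : ℕ) + L := by exact_mod_cast hL
    linarith
  have hlog : 0 < Real.log w := Real.log_pos (by linarith)
  have hI : Ival t h = Ico ⌈t⌉₊ (⌈t⌉₊ + L) := by rw [Ival, hL]
  rw [hI]
  set a := ⌈t⌉₊
  have h1 : (((Ico a (a + L)).filter (Rough w)).card : ℝ) =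
      ∑ n ∈ Ico a (a + L), (if Rough w n then (1 : ℝ) else 0) := by
    rw [sum_boole]
  have h2 : ∑ n ∈ Ico a (a + L), (if Rough w n then (1 : ℝ) else 0) ≤
      ∑ d ∈ Icc 1 ⌊w⌋₊, ∑ e ∈ Icc 1 ⌊w⌋₊, ρ d * ρ e *
        (((Ico a (a + L)).filter (fun n => Nat.lcm d e ∣ n)).card : ℝ) := by
    refine (sum_le_sum fun n _ => rough_le_sq w hw ρ hρ1 n).trans (le_of_eq ?_)
    rw [sum_comm]
    refine sum_congr rfl fun d _ => ?_
    rw [sum_comm]
    refine sum_congr rfl fun e _ => ?_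
    rw [← mul_sum, sum_boole]
  have h3 : ∑ d ∈ Icc 1 ⌊w⌋₊, ∑ e ∈ Icc 1 ⌊w⌋₊, ρ d * ρ e *
        (((Ico a (a + L)).filter (fun n => Nat.lcm d e ∣ n)).card : ℝ) ≤
      ∑ d ∈ Icc 1 ⌊w⌋₊, ∑ e ∈ Icc 1 ⌊w⌋₊, (L * (ρ d * ρ e / (Nat.lcm d e : ℝ)) + 1) := by
    refine sum_le_sum fun d hd => sum_le_sum fun e he => ?_
    rw [mem_Icc] at hd he
    have hp : 0 < Nat.lcm d e := Nat.lcm_pos (by omega) (by omega)
    have hc := cnt a L _ hp
    have h4 : |ρ d * ρ e| ≤ 1 := by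
      rw [abs_mul]; exact mul_le_one₀ (hρ2 d) (abs_nonneg _) (hρ2 e)
    have h5 : |ρ d * ρ e * ((((Ico a (a + L)).filter (fun n => Nat.lcm d e ∣ n)).card : ℝ) -
        L / (Nat.lcm d e : ℕ))| ≤ 1 := by
      rw [abs_mul]; exact mul_le_one₀ h4 (abs_nonneg _) hc
    have h6 := (abs_le.mp h5).2
    have h7 : L * (ρ d * ρ e / (Nat.lcm d e : ℝ)) = ρ d * ρ e * (L / (Nat.lcm d e : ℕ)) := by ring
    rw [h7]
    linarith
  have h4 : ∑ d ∈ Icc 1 ⌊w⌋₊, ∑ e ∈ Icc 1 ⌊w⌋₊, (L * (ρ d * ρ e / (Nat.lcm d e : ℝ)) + 1) =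
      L * ∑ d ∈ Icc 1 ⌊w⌋₊, ∑ e ∈ Icc 1 ⌊w⌋₊, ρ d * ρ e / (Nat.lcm d e : ℝ) +
        ((⌊w⌋₊ : ℕ) : ℝ) ^ 2 := by
    simp only [sum_add_distrib, ← mul_sum, sum_const, Nat.card_Icc, nsmul_eq_mul]
    push_cast
    ring
  have h5 : ((⌊w⌋₊ : ℕ) : ℝ) ≤ w := Nat.floor_le (by linarith)
  have h6 : ((⌊w⌋₊ : ℕ) : ℝ) ^ 2 ≤ h / Real.log w := by
    rw [le_div_iff₀ hlog]
    have h7 : Real.log w ≤ w := (Real.log_le_sub_one_of_pos (by linarith)).trans (by linarith)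
    have h8 : ((⌊w⌋₊ : ℕ) : ℝ) ^ 2 ≤ w ^ 2 := pow_le_pow_left₀ (by positivity) h5 2
    have h9 : w ^ 3 ≤ w ^ 5 := pow_le_pow_right₀ (by linarith) (by norm_num)
    calc ((⌊w⌋₊ : ℕ) : ℝ) ^ 2 * Real.log w ≤ w ^ 2 * w :=
          mul_le_mul h8 h7 hlog.le (by positivity)
      _ = w ^ 3 := by ring
      _ ≤ h := h9.trans hh
  have h7 : L * ∑ d ∈ Icc 1 ⌊w⌋₊, ∑ e ∈ Icc 1 ⌊w⌋₊, ρ d * ρ e / (Nat.lcm d e : ℝ) ≤
      2 * h * (C / Real.log w) :=
    (mul_le_mul_of_nonneg_left (abs_le.mp hρ3).2 (by positivity)).trans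
      (mul_le_mul_of_nonneg_right hLh (by positivity))
  rw [h1]
  have h8 : (2 * C + 1) * h / Real.log w = 2 * h * (C / Real.log w) + h / Real.log w := by ring
  rw [h8]
  linarith

theorem card_small (P : Finset ℕ) (hP : ∀ p ∈ P, p.Prime) (Y : ℕ) :
    (P.powerset.filter (fun T : Finset ℕ => ∏ p ∈ T, p ≤ Y)).card ≤ Y := by
  have h1 : (P.powerset.filter (fun T : Finset ℕ => ∏ p ∈ T, p ≤ Y)).card ≤ (Icc 1 Y).card := by
    refine card_le_card_of_injOn (fun T => ∏ p ∈ T, p) ?_ ?_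
    · intro T hT
      simp only [coe_filter, mem_powerset, Set.mem_ofPred_eq] at hT
      simp only [coe_Icc, Set.mem_Icc]
      refine ⟨?_, hT.2⟩
      exact Finset.one_le_prod' fun p hp => (hP p (hT.1 hp)).one_le
    · intro T hT T' hT' he
      simp only [coe_filter, mem_powerset, Set.mem_ofPred_eq] at hT hT'
      have e1 := Nat.primeFactors_prod (s := T) fun p hp => hP p (hT.1 hp)
      have e2 := Nat.primeFactors_prod (s := T') fun p hp => hP p (hT'.1 hp)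
      simp only at he
      rw [← e1, ← e2, he]
  simpa using h1

open Pool.Agent.H588R5.EP in
theorem eer_le (a L : ℕ) (S : Finset ℕ) (hS : ∀ p ∈ S, p.Prime) :
    |EEr (Ico a (a + L)) (fun _ => 1) (fun p m => p ∣ m) L S| ≤ 1 := by
  classical
  have hp : 0 < ∏ p ∈ S, p := prod_pos fun p hp => (hS p hp).pos
  have h1 := cnt a L _ hp
  unfold EEr
  have e1 : ∀ m : ℕ, (∀ p ∈ S, p ∣ m) ↔ (∏ p ∈ S, p) ∣ m := by
    intro m
    constructor
    · intro h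
      exact Finset.prod_primes_dvd m (fun p hp => (hS p hp).prime) h
    · intro h p hp
      exact (dvd_prod_of_mem (fun p => p) hp).trans h
  have e2 : (L : ℝ) * ∏ p ∈ S, 1 / (p : ℝ) = L / ((∏ p ∈ S, p : ℕ) : ℝ) := by
    rw [prod_div_distrib, prod_const_one]
    push_cast
    ring
  rw [e2]
  simp only [sum_const, nsmul_eq_mul, mul_one]
  have e3 : ∀ (i : DecidablePred fun m : ℕ => ∀ p ∈ S, p ∣ m),
      @filter ℕ (fun m => ∀ p ∈ S, p ∣ m) i (Ico a (a + L)) =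
        (Ico a (a + L)).filter (fun m => (∏ p ∈ S, p) ∣ m) := by
    intro i
    ext m
    simp only [mem_filter, e1]
  rw [e3]
  exact h1

open Pool.Agent.H588R5.EP in
theorem fl : S_FL := by
  classical
  obtain ⟨C0, hC0, hF⟩ := Pool.Agent.H20R2.fLem 1
  obtain ⟨b, hb⟩ : ∃ b, b = max C0 5 := ⟨_, rfl⟩
  have hb1 : C0 ≤ b := hb ▸ le_max_left _ _
  have hb2 : 5 ≤ b := hb ▸ le_max_right _ _
  refine ⟨2 * (C0 * b) + 1, 3 * 2 ^ (C0 + 1), by positivity, fun z hz a L => ?_⟩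
  obtain ⟨N, hN⟩ : ∃ N, N = ⌊z⌋₊ := ⟨_, rfl⟩
  have hN2 : 2 ≤ N := hN ▸ Nat.le_floor (by exact_mod_cast hz)
  have hNz : (N : ℝ) ≤ z := hN ▸ Nat.floor_le (by linarith)
  obtain ⟨J, hJ1, hJ2, hJ3⟩ := fl2_J N hN2
  obtain ⟨PP, hPP⟩ : ∃ PP, PP = (range (N + 1)).filter Nat.Prime := ⟨_, rfl⟩
  obtain ⟨P0, hP0⟩ : ∃ P0, P0 = PP.filter (fun p => p ≤ C0) := ⟨_, rfl⟩
  obtain ⟨P1, hP1⟩ : ∃ P1, P1 = PP.filter (fun p => ¬ p ≤ C0) := ⟨_, rfl⟩
  have hdisj : Disjoint P0 P1 := by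
    rw [hP0, hP1]; exact disjoint_filter_filter_not _ _ _
  have hunion : P0 ∪ P1 = PP := by
    rw [hP0, hP1]; exact filter_union_filter_not_eq _ _
  have hmemz : ∀ p, p ∈ PP ↔ p.Prime ∧ p ≤ N := by
    intro p
    rw [hPP, mem_filter, mem_range]
    constructor
    · rintro ⟨h1, h2⟩; exact ⟨h2, by omega⟩
    · rintro ⟨h1, h2⟩; exact ⟨by omega, h1⟩
  have hP1p : ∀ p ∈ P1, p.Prime ∧ C0 < p ∧ p ≤ 2 ^ 2 ^ J := by
    intro p hp
    rw [hP1, mem_filter] at hp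
    obtain ⟨h1, h2⟩ := hp
    exact ⟨((hmemz p).mp h1).1, by omega, ((hmemz p).mp h1).2.trans hJ1⟩
  have hP0p : ∀ p ∈ P0, p.Prime := by
    intro p hp
    rw [hP0, mem_filter] at hp
    exact ((hmemz p).mp hp.1).1
  have hP0c : P0.card ≤ C0 + 1 := by
    have : P0 ⊆ range (C0 + 1) := by
      intro p hp
      rw [hP0, mem_filter] at hp
      exact mem_range.mpr (by omega)
    simpa using card_le_card this
  have hg : ∀ p ∈ P1, 0 ≤ 1 / (p : ℝ) ∧ 1 / (p : ℝ) ≤ ((1 : ℕ) : ℝ) / ((p : ℝ) - 1) := by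
    intro p hp
    have h2 : 2 ≤ p := (hP1p p hp).1.two_le
    have h3 : (2 : ℝ) ≤ p := by exact_mod_cast h2
    refine ⟨by positivity, ?_⟩
    push_cast
    exact one_div_le_one_div_of_le (by linarith) (by linarith)
  have hVnn : ∀ Q : Finset ℕ, 0 ≤ ∏ p ∈ Q, (1 - 1 / (p : ℝ)) := by
    intro Q
    refine prod_nonneg fun p _ => ?_
    rcases Nat.eq_zero_or_pos p with h | h
    · subst h; simp
    · have : (1 : ℝ) ≤ p := by exact_mod_cast h
      have h2 : 1 / (p : ℝ) ≤ 1 := by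
        rw [div_le_one (by linarith)]; exact this
      linarith
  have hA : (0 : ℝ) ≤ L := by positivity
  have hmain := hF b J C0 P1 (fun p => 1 / (p : ℝ)) hb1 le_rfl hP1p hg (Ico a (a + L))
    (fun m => if ∀ p ∈ P0, ¬ p ∣ m then (1 : ℝ) else 0) (fun p m => p ∣ m)
    (L * ∏ p ∈ P0, (1 - 1 / (p : ℝ))) (fun _ => 2 ^ (C0 + 1))
    (fun m hm => by
      split_ifs
      · exact zero_le_one
      · exact le_rfl)
    (mul_nonneg hA (hVnn P0))
    (fun T hT _ => by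
      have hl := fl2_local (Ico a (a + L)) (fun _ => 1) (fun p m => p ∣ m) L P0 T
        (disjoint_of_subset_right hT hdisj)
      have hb : |∑ U ∈ P0.powerset, (-1) ^ U.card *
          EEr (Ico a (a + L)) (fun _ => 1) (fun p m => p ∣ m) L (U ∪ T)| ≤ 2 ^ (C0 + 1) := by
        refine (abs_sum_le_sum_abs _ _).trans ?_
        have h1 : ∀ U ∈ P0.powerset, |(-1) ^ U.card *
            EEr (Ico a (a + L)) (fun _ => 1) (fun p m => p ∣ m) L (U ∪ T)| ≤ 1 := by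
          intro U hU
          rw [abs_mul, abs_pow, abs_neg, abs_one, one_pow, one_mul]
          refine eer_le a L _ fun p hp => ?_
          rcases mem_union.mp hp with h | h
          · exact hP0p p (mem_powerset.mp hU h)
          · exact (hP1p p (hT h)).1
        refine (sum_le_sum h1).trans ?_
        simp only [sum_const, card_powerset, nsmul_eq_mul, mul_one]
        push_cast
        exact pow_le_pow_right₀ (by norm_num) hP0c
      rw [← hl] at hb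
      convert hb)
  have hsum : ∑ m ∈ (Ico a (a + L)).filter (fun m => ∀ p ∈ P1, ¬ p ∣ m),
      (if ∀ p ∈ P0, ¬ p ∣ m then (1 : ℝ) else 0) =
      (((Ico a (a + L)).filter (Rough z)).card : ℝ) := by
    rw [sum_boole, filter_filter]
    congr 2
    refine filter_congr fun m _ => ?_
    constructor
    · rintro ⟨h2, h3⟩ p hp hpm
      by_contra hlt
      have h4 : p ≤ N := hN ▸ Nat.le_floor (not_lt.mp hlt)
      have h5 : p ∈ P0 ∪ P1 := hunion ▸ (hmemz p).mpr ⟨hp, h4⟩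
      rcases mem_union.mp h5 with h | h
      · exact h3 p h hpm
      · exact h2 p h hpm
    · intro hr
      have h1 : ∀ p ∈ PP, ¬ p ∣ m := by
        intro p hp hpm
        obtain ⟨h2, h3⟩ := (hmemz p).mp hp
        have h4 := hr p h2 hpm
        have h5 : (p : ℝ) ≤ N := by exact_mod_cast h3
        linarith
      exact ⟨fun p hp => h1 p (hunion ▸ mem_union_right _ hp),
        fun p hp => h1 p (hunion ▸ mem_union_left _ hp)⟩
  have hV : L * (∏ p ∈ P0, (1 - 1 / (p : ℝ))) * ∏ p ∈ P1, (1 - 1 / (p : ℝ)) = L * VV z := by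
    rw [VV, ← hN, ← hPP, ← hunion, prod_union hdisj, mul_assoc]
  have hmain2 : |(((Ico a (a + L)).filter (Rough z)).card : ℝ) - L * VV z| ≤
      (1 / 2 : ℝ) ^ b * (L * VV z) + ((J : ℝ) + 2) *
        ∑ T ∈ P1.powerset.filter (fun T : Finset ℕ => ∏ p ∈ T, p ≤ (2 ^ 2 ^ J) ^ (C0 * b)),
          (2 : ℝ) ^ (C0 + 1) := by
    rw [← hsum, ← hV]
    convert hmain
  have hAV : 0 ≤ L * VV z := mul_nonneg hA (hVnn _)
  have hhalf : (1 / 2 : ℝ) ^ b ≤ 1 / 20 := by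
    have := pow_le_pow_of_le_one (by norm_num : (0 : ℝ) ≤ 1 / 2) (by norm_num) hb2
    norm_num at this ⊢
    linarith
  have hc := card_small P1 (fun p hp => (hP1p p hp).1) ((2 ^ 2 ^ J) ^ (C0 * b))
  have hY : (((2 ^ 2 ^ J) ^ (C0 * b) : ℕ) : ℝ) ≤ z ^ (2 * (C0 * b)) := by
    have h1 : (2 ^ 2 ^ J) ^ (C0 * b) ≤ N ^ (2 * (C0 * b)) := by
      rw [pow_mul N]
      exact Nat.pow_le_pow_left hJ2 _
    have h2 : (((2 ^ 2 ^ J) ^ (C0 * b) : ℕ) : ℝ) ≤ (N : ℝ) ^ (2 * (C0 * b)) := by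
      exact_mod_cast h1
    exact h2.trans (pow_le_pow_left₀ (by positivity) hNz _)
  have hc' : ((P1.powerset.filter
      (fun T : Finset ℕ => ∏ p ∈ T, p ≤ (2 ^ 2 ^ J) ^ (C0 * b))).card : ℝ) ≤
      z ^ (2 * (C0 * b)) := le_trans (by exact_mod_cast hc) hY
  have hJ4 : (J : ℝ) + 2 ≤ 3 * z := by
    have h1 : (0 : ℝ) < N := by exact_mod_cast (by omega : 0 < N)
    have h2 := Real.log_le_sub_one_of_pos h1
    linarith
  refine hmain2.trans (add_le_add ?_ ?_)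
  · rw [mul_assoc]
    exact mul_le_mul_of_nonneg_right hhalf hAV
  · rw [sum_const, nsmul_eq_mul]
    calc ((J : ℝ) + 2) * (((P1.powerset.filter
          (fun T : Finset ℕ => ∏ p ∈ T, p ≤ (2 ^ 2 ^ J) ^ (C0 * b))).card : ℝ) * 2 ^ (C0 + 1))
        ≤ (3 * z) * (z ^ (2 * (C0 * b)) * 2 ^ (C0 + 1)) :=
          mul_le_mul hJ4 (mul_le_mul_of_nonneg_right hc' (by positivity)) (by positivity)
            (by positivity)
      _ = 3 * 2 ^ (C0 + 1) * z ^ (2 * (C0 * b) + 1) := by ring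

end Pool.Agent.H421Z.MO
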